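import Mathlib

set_option autoImplicit false

namespace Pool.Agent.MP_0ab388_gt

/-- Binary terms over the Cantor space. -/
inductive Tm : Type
  | leaf : (ℕ → Bool) → Tm
  | node : Tm → Tm → Tm

namespace Tm

/-- number of leaves -/
def size : Tm → ℕ
  | leaf _ => 1
  | node a b => size a + size b

/-- the set of subterms -/
def Sub : Tm → Set Tm
  | leaf z => {leaf z}
  | node a b => insert (node a b) (Sub a ∪ Sub b)

/-- two terms have the same shape and their leaves agree below `k` -/
def Agree (k : ℕ) : Tm → Tm → Prop
  | leaf z, leaf w => ∀ i < k, z i = w i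
  | node a b, node a' b' => Agree k a a' ∧ Agree k b b'
  | leaf _, node _ _ => False
  | node _ _, leaf _ => False

/-- a code for the truncation of a term -/
def code (k : ℕ) : Tm → ℕ
  | leaf z => 2 * Encodable.encode ((List.range k).map z)
  | node a b => 2 * Nat.pair (code k a) (code k b) + 1

theorem size_pos (t : Tm) : 0 < size t := by
  induction t with
  | leaf z => simp [size]
  | node a b iha ihb => simp only [size]; omega

theorem self_mem_Sub (t : Tm) : t ∈ Sub t := by
  cases t with
  | leaf z => simp [Sub]
  | node a b => simp [Sub]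

theorem Sub_finite (t : Tm) : (Sub t).Finite := by
  induction t with
  | leaf z => simp [Sub]
  | node a b iha ihb =>
    simp only [Sub]
    exact (iha.union ihb).insert _

theorem Sub_subset {s t : Tm} (h : s ∈ Sub t) : Sub s ⊆ Sub t := by
  induction t with
  | leaf z =>
    simp only [Sub, Set.mem_singleton_iff] at h
    rw [h]
  | node a b iha ihb =>
    simp only [Sub, Set.mem_insert_iff, Set.mem_union] at h
    rcases h with h | h | h
    · rw [h]
    · intro x hx
      simp only [Sub, Set.mem_insert_iff, Set.mem_union]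
      exact Or.inr (Or.inl (iha h hx))
    · intro x hx
      simp only [Sub, Set.mem_insert_iff, Set.mem_union]
      exact Or.inr (Or.inr (ihb h hx))

theorem size_le_of_mem {s t : Tm} (h : s ∈ Sub t) : s = t ∨ size s < size t := by
  induction t with
  | leaf z =>
    simp only [Sub, Set.mem_singleton_iff] at h
    exact Or.inl h
  | node a b iha ihb =>
    simp only [Sub, Set.mem_insert_iff, Set.mem_union] at h
    have ha := size_pos a
    have hb := size_pos b
    rcases h with h | h | h
    · exact Or.inl h
    · right
      rcases iha h with h | h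
      · rw [h]; simp only [size]; omega
      · simp only [size]; omega
    · right
      rcases ihb h with h | h
      · rw [h]; simp only [size]; omega
      · simp only [size]; omega

theorem size_le {s t : Tm} (h : s ∈ Sub t) : size s ≤ size t := by
  rcases size_le_of_mem h with h | h
  · rw [h]
  · exact h.le

theorem Sub_antisymm {s t : Tm} (h1 : s ∈ Sub t) (h2 : t ∈ Sub s) : s = t := by
  rcases size_le_of_mem h1 with h | h
  · exact h
  · have := size_le h2
    omega

theorem agree_refl (k : ℕ) (t : Tm) : Agree k t t := by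
  induction t with
  | leaf z => simp [Agree]
  | node a b iha ihb => exact ⟨iha, ihb⟩

theorem Agree.symm {k : ℕ} {s t : Tm} (h : Agree k s t) : Agree k t s := by
  induction s generalizing t with
  | leaf z =>
    cases t with
    | leaf w => intro i hi; exact (h i hi).symm
    | node a b => exact h.elim
  | node a b iha ihb =>
    cases t with
    | leaf w => exact h.elim
    | node a' b' => exact ⟨iha h.1, ihb h.2⟩

theorem Agree.trans {k : ℕ} {s t u : Tm} (h : Agree k s t) (h' : Agree k t u) : Agree k s u := by
  induction s generalizing t u with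
  | leaf z =>
    cases t with
    | leaf w =>
      cases u with
      | leaf v => intro i hi; exact (h i hi).trans (h' i hi)
      | node a b => exact h'.elim
    | node a b => exact h.elim
  | node a b iha ihb =>
    cases t with
    | leaf w => exact h.elim
    | node a' b' =>
      cases u with
      | leaf v => exact h'.elim
      | node a'' b'' => exact ⟨iha h.1 h'.1, ihb h.2 h'.2⟩

theorem Agree.mono {j k : ℕ} (hjk : j ≤ k) {s t : Tm} (h : Agree k s t) : Agree j s t := by
  induction s generalizing t with
  | leaf z =>
    cases t with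
    | leaf w => intro i hi; exact h i (lt_of_lt_of_le hi hjk)
    | node a b => exact h.elim
  | node a b iha ihb =>
    cases t with
    | leaf w => exact h.elim
    | node a' b' => exact ⟨iha h.1, ihb h.2⟩

theorem Agree.size_eq {k : ℕ} {s t : Tm} (h : Agree k s t) : size s = size t := by
  induction s generalizing t with
  | leaf z =>
    cases t with
    | leaf w => rfl
    | node a b => exact h.elim
  | node a b iha ihb =>
    cases t with
    | leaf w => exact h.elim
    | node a' b' => simp only [size]; rw [iha h.1, ihb h.2]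

theorem Agree.exists_sub {k : ℕ} {s t u : Tm} (h : Agree k t u) (hs : s ∈ Sub t) :
    ∃ s' ∈ Sub u, Agree k s s' := by
  induction t generalizing u with
  | leaf z =>
    simp only [Sub, Set.mem_singleton_iff] at hs
    subst hs
    exact ⟨u, self_mem_Sub u, h⟩
  | node a b iha ihb =>
    cases u with
    | leaf w => exact h.elim
    | node a' b' =>
      simp only [Sub, Set.mem_insert_iff, Set.mem_union] at hs
      rcases hs with hs | hs | hs
      · subst hs
        exact ⟨_, self_mem_Sub _, h⟩
      · obtain ⟨s', h1, h2⟩ := iha h.1 hs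
        exact ⟨s', by simp [Sub, h1], h2⟩
      · obtain ⟨s', h1, h2⟩ := ihb h.2 hs
        exact ⟨s', by simp [Sub, h1], h2⟩

theorem eq_of_agree {s t : Tm} (h : ∀ k, Agree k s t) : s = t := by
  induction s generalizing t with
  | leaf z =>
    cases t with
    | leaf w =>
      congr 1
      funext i
      exact h (i + 1) i (Nat.lt_succ_self i)
    | node a b => exact (h 0).elim
  | node a b iha ihb =>
    cases t with
    | leaf w => exact (h 0).elim
    | node a' b' =>
      rw [iha (fun k => (h k).1), ihb (fun k => (h k).2)]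

/-- Any finite set of terms different from `p` is separated from `p` at some level. -/
theorem exists_sep (p : Tm) {F : Set Tm} (hF : F.Finite) (hp : p ∉ F) :
    ∃ k, ∀ s ∈ F, ¬ Agree k p s := by
  have h1 : ∀ s ∈ F, ∃ k, ¬ Agree k p s := by
    intro s hs
    by_contra hcon
    push Not at hcon
    exact hp (eq_of_agree hcon ▸ hs)
  choose! f hf using h1
  obtain ⟨K, hK⟩ := (hF.image f).bddAbove
  refine ⟨K, fun s hs hag => hf s hs (hag.mono ?_)⟩
  exact hK (Set.mem_image_of_mem f hs)

theorem code_eq_iff (k : ℕ) (s t : Tm) : code k s = code k t ↔ Agree k s t := by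
  induction s generalizing t with
  | leaf z =>
    cases t with
    | leaf w =>
      simp only [code, Agree]
      constructor
      · intro h
        have h2 : (List.range k).map z = (List.range k).map w :=
          Encodable.encode_injective (by omega)
        intro i hi
        exact (List.map_inj_left.1 h2) i (List.mem_range.2 hi)
      · intro h
        have : (List.range k).map z = (List.range k).map w :=
          List.map_inj_left.2 (fun i hi => h i (List.mem_range.1 hi))
        rw [this]
    | node a b =>
      simp only [code, Agree, iff_false]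
      omega
  | node a b iha ihb =>
    cases t with
    | leaf w =>
      simp only [code, Agree, iff_false]
      omega
    | node a' b' =>
      simp only [code, Agree]
      rw [← iha, ← ihb]
      constructor
      · intro h
        have h2 : Nat.pair (code k a) (code k b) = Nat.pair (code k a') (code k b') := by omega
        exact Nat.pair_eq_pair.1 h2
      · rintro ⟨h1, h2⟩
        rw [h1, h2]

/-- iterated left multiplication applied to a leaf -/
def ctx : List Tm → (ℕ → Bool) → Tm
  | [], y => leaf y
  | q :: h, y => node q (ctx h y)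

theorem size_ctx_eq (h : List Tm) (y z : ℕ → Bool) : size (ctx h y) = size (ctx h z) := by
  induction h with
  | nil => rfl
  | cons q h ih => simp only [ctx, size, ih]

theorem length_lt_size_ctx (h : List Tm) (y : ℕ → Bool) : h.length < size (ctx h y) := by
  induction h with
  | nil => simp [ctx, size]
  | cons q h ih =>
    have := size_pos q
    simp only [ctx, size, List.length_cons]
    omega

theorem agree_ctx (h : List Tm) {k : ℕ} {y z : ℕ → Bool} (hyz : ∀ i < k, y i = z i) :
    Agree k (ctx h y) (ctx h z) := by
  induction h with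
  | nil => exact hyz
  | cons q h ih => exact ⟨agree_refl k q, ih⟩

/-- `Chain c h m z k q`: the term `q` is obtained from `ctx h z` by `k` steps
`q ↦ node q (ctx h y)`, each producing a term of colour `false`, the `y` of step `j`
agreeing with `z` below `m + j`. -/
inductive Chain (c : Tm → Bool) (h : List Tm) (m : ℕ) (z : ℕ → Bool) : ℕ → Tm → Prop
  | base : Chain c h m z 0 (ctx h z)
  | step (k : ℕ) (q : Tm) (y : ℕ → Bool) : Chain c h m z k q → (∀ i < m + k, y i = z i) →
      c (node q (ctx h y)) = false → Chain c h m z (k + 1) (node q (ctx h y))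

theorem Chain.sub_cases {c : Tm → Bool} {h : List Tm} {m : ℕ} {z : ℕ → Bool} {k : ℕ} {q : Tm}
    (hq : Chain c h m z k q) : size (ctx h z) ≤ size q ∧
      ∀ s ∈ Sub q, size (ctx h z) ≤ size s ∨ ∃ y : ℕ → Bool, (∀ i < m, y i = z i) ∧
        s ∈ Sub (ctx h y) := by
  induction hq with
  | base => exact ⟨le_refl _, fun s hs => Or.inr ⟨z, fun _ _ => rfl, hs⟩⟩
  | step k q y hch hy hc ih =>
    have hsz : size (ctx h z) ≤ size (node q (ctx h y)) := by
      simp only [size]
      omega
    refine ⟨hsz, ?_⟩
    intro s hs
    simp only [Sub, Set.mem_insert_iff, Set.mem_union] at hs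
    rcases hs with hs | hs | hs
    · left
      rw [hs]
      exact hsz
    · exact ih.2 s hs
    · exact Or.inr ⟨y, fun i hi => hy i (by omega), hs⟩

/-- The good sequences that defeat a colouring. -/
structure Good (c : Tm → Bool) (p : ℕ → Tm) (col : Bool) : Prop where
  mono : ∀ n, p n ∈ Sub (p (n + 1))
  size_lt : ∀ n, n < size (p n)
  homog : ∀ n, ∀ s ∈ Sub (p n), p 0 ∈ Sub s → s ≠ p 0 → c s = col
  small : ∀ i, ∀ s ∈ Sub (p (i + 1)), s ∉ Sub (p i) →
    i < size s ∨ ∃ s' ∈ Sub (p (size s)), Agree i s s'

theorem case_a (c : Tm → Bool) (h : List Tm) (m : ℕ) (z : ℕ → Bool)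
    (H : ∀ k q, Chain c h m z k q → ∃ y : ℕ → Bool, (∀ i < m + k, y i = z i) ∧
      c (node q (ctx h y)) = false) : ∃ p, Good c p false := by
  choose! Y hY1 hY2 using H
  let p : ℕ → Tm := fun n => Nat.rec (ctx h z) (fun k q => node q (ctx h (Y k q))) n
  have p0 : p 0 = ctx h z := rfl
  have ps : ∀ n, p (n + 1) = node (p n) (ctx h (Y n (p n))) := fun n => rfl
  have hch : ∀ n, Chain c h m z n (p n) := by
    intro n
    induction n with
    | zero => exact Chain.base
    | succ n ih =>
      rw [ps]
      exact Chain.step n (p n) _ ih (hY1 n _ ih) (hY2 n _ ih)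
  have hsize : ∀ n, n < size (p n) := by
    intro n
    induction n with
    | zero => exact size_pos _
    | succ n ih =>
      rw [ps]
      have := size_pos (ctx h (Y n (p n)))
      simp only [size]
      omega
  have hmono : ∀ n, p n ∈ Sub (p (n + 1)) := by
    intro n
    rw [ps]
    simp only [Sub, Set.mem_insert_iff, Set.mem_union]
    exact Or.inr (Or.inl (self_mem_Sub _))
  have hsub : ∀ n, p 0 ∈ Sub (p n) := by
    intro n
    induction n with
    | zero => exact self_mem_Sub _
    | succ n ih => exact Sub_subset (hmono n) ih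
  refine ⟨p, hmono, hsize, ?_, ?_⟩
  · intro n
    induction n with
    | zero =>
      intro s hs h0 hne
      exact absurd (Sub_antisymm hs h0) hne
    | succ n ih =>
      intro s hs h0 hne
      rw [ps] at hs
      simp only [Sub, Set.mem_insert_iff, Set.mem_union] at hs
      rcases hs with hs | hs | hs
      · rw [hs]
        exact hY2 n _ (hch n)
      · exact ih s hs h0 hne
      · exfalso
        have h1 := size_le hs
        rw [size_ctx_eq h _ z, ← p0] at h1
        rcases size_le_of_mem h0 with h2 | h2
        · exact hne h2.symm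
        · omega
  · intro i s hs hns
    rw [ps] at hs
    simp only [Sub, Set.mem_insert_iff, Set.mem_union] at hs
    rcases hs with hs | hs | hs
    · left
      rw [hs, ← ps]
      exact lt_trans (Nat.lt_succ_self i) (hsize (i + 1))
    · exact absurd hs hns
    · right
      have hag : Agree (m + i) (ctx h (Y i (p i))) (ctx h z) :=
        agree_ctx h (hY1 i _ (hch i))
      obtain ⟨s', h1, h2⟩ := hag.exists_sub hs
      refine ⟨s', Sub_subset (hsub _) (p0 ▸ h1), h2.mono (by omega)⟩

/-- truncation of a point of the Cantor space -/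
def tr (k : ℕ) (z : ℕ → Bool) : List Bool := (List.range k).map z

theorem tr_length (k : ℕ) (z : ℕ → Bool) : (tr k z).length = k := by simp [tr]

theorem tr_eq {k : ℕ} {y z : ℕ → Bool} (h : tr k y = tr k z) : ∀ i < k, y i = z i := by
  intro i hi
  exact (List.map_inj_left.1 h) i (List.mem_range.2 hi)

/-- `q` is a terminal chain value, for a base point in the basic clopen set given by `s` -/
def Terminal (c : Tm → Bool) (h : List Tm) (m : ℕ) (s : List Bool) (q : Tm) : Prop :=
  ∃ (z : ℕ → Bool) (k : ℕ), s = tr (m + k) z ∧ Chain c h m z k q ∧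
    ∀ y : ℕ → Bool, (∀ i < m + k, y i = z i) → c (node q (ctx h y)) = true

open Classical in
/-- a chosen terminal value -/
noncomputable def pick (c : Tm → Bool) (h : List Tm) (m : ℕ) (s : List Bool) : Tm :=
  if hx : ∃ q, Terminal c h m s q then hx.choose else leaf (fun _ => false)

theorem pick_spec {c : Tm → Bool} {h : List Tm} {m : ℕ} {s : List Bool}
    (hx : ∃ q, Terminal c h m s q) : Terminal c h m s (pick c h m s) := by
  unfold pick
  rw [dif_pos hx]
  exact hx.choose_spec

/-- the list of terms attached to a list of strings -/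
noncomputable def hist (c : Tm → Bool) : List (List Bool) → List Tm
  | [] => []
  | s :: σ => pick c (hist c σ) σ.length s :: hist c σ

theorem hist_length (c : Tm → Bool) (σ : List (List Bool)) : (hist c σ).length = σ.length := by
  induction σ with
  | nil => rfl
  | cons s σ ih => simp [hist, ih]

theorem case_b (c : Tm → Bool)
    (H : ∀ (h : List Tm) (m : ℕ) (z : ℕ → Bool), ∃ k q, Chain c h m z k q ∧
      ∀ y : ℕ → Bool, (∀ i < m + k, y i = z i) → c (node q (ctx h y)) = true) :
    ∃ p, Good c p true := by
  -- the countable set of leaves to be avoided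
  let bad : Set (ℕ → Bool) := {z | ∃ σ : List (List Bool), ∃ t ∈ hist c σ, leaf z ∈ Sub t}
  have hbad : bad.Countable := by
    have : bad = ⋃ σ : List (List Bool), ⋃ t ∈ {t | t ∈ hist c σ}, leaf ⁻¹' (Sub t) := by
      ext z
      simp [bad]
    rw [this]
    refine Set.countable_iUnion (fun σ => ?_)
    refine Set.Countable.biUnion ?_ ?_
    · exact (List.finite_toSet _).countable
    · intro t _
      exact ((Sub_finite t).preimage (fun a _ b _ hab => by
        simpa using hab)).countable
  obtain ⟨r, hr⟩ : ∃ r : ℕ → Bool, r ∉ bad := by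
    by_contra hcon
    push Not at hcon
    have huniv : bad = Set.univ := Set.eq_univ_of_forall hcon
    rw [huniv] at hbad
    have hunc : Uncountable (ℕ → Bool) := by
      rw [← Cardinal.aleph0_lt_mk_iff]
      simp [Cardinal.aleph0_lt_continuum]
    exact not_countable (α := ℕ → Bool) (Set.countable_univ_iff.1 hbad)
  have hstep : ∀ σ : List (List Bool), ∃ s : List Bool, s = tr s.length r ∧
      Terminal c (hist c σ) σ.length s (pick c (hist c σ) σ.length s) := by
    intro σ
    obtain ⟨k, q, h1, h2⟩ := H (hist c σ) σ.length r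
    refine ⟨tr (σ.length + k) r, by rw [tr_length], ?_⟩
    exact pick_spec ⟨q, r, k, rfl, h1, h2⟩
  choose S hS1 hS2 using hstep
  let sg : ℕ → List (List Bool) := fun n => Nat.rec [] (fun _ σ => S σ :: σ) n
  have sg0 : sg 0 = [] := rfl
  have sgs : ∀ n, sg (n + 1) = S (sg n) :: sg n := fun n => rfl
  have sglen : ∀ n, (sg n).length = n := by
    intro n
    induction n with
    | zero => rfl
    | succ n ih => rw [sgs, List.length_cons, ih]
  let Q : ℕ → Tm := fun n => pick c (hist c (sg n)) (sg n).length (S (sg n))
  have hists : ∀ n, hist c (sg (n + 1)) = Q n :: hist c (sg n) := fun n => rfl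
  let P : (ℕ → Bool) → ℕ → Tm := fun y n => ctx (hist c (sg n)) y
  have P0 : ∀ y, P y 0 = leaf y := fun y => rfl
  have Ps : ∀ y n, P y (n + 1) = node (Q n) (P y n) := fun y n => rfl
  have hsize : ∀ y n, n < size (P y n) := by
    intro y n
    have h1 := length_lt_size_ctx (hist c (sg n)) y
    rw [hist_length, sglen] at h1
    exact h1
  have hmono : ∀ y n, P y n ∈ Sub (P y (n + 1)) := by
    intro y n
    rw [Ps]
    simp only [Sub, Set.mem_insert_iff, Set.mem_union]
    exact Or.inr (Or.inr (self_mem_Sub _))
  have hmono' : ∀ y m n, m ≤ n → P y m ∈ Sub (P y n) := by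
    intro y m n hmn
    induction n, hmn using Nat.le_induction with
    | base => exact self_mem_Sub _
    | succ n _ ih => exact Sub_subset (hmono y n) ih
  have hQ : ∀ n, Terminal c (hist c (sg n)) n (S (sg n)) (Q n) := by
    intro n
    have := hS2 (sg n)
    simp only [Q]
    rw [sglen] at this ⊢
    exact this
  have hQr : ∀ n, leaf r ∉ Sub (Q n) := by
    intro n hcon
    refine hr ⟨sg (n + 1), Q n, ?_, hcon⟩
    rw [hists]
    exact List.mem_cons_self
  refine ⟨P r, hmono r, hsize r, ?_, ?_⟩
  · intro n
    induction n with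
    | zero =>
      intro s hs h0 hne
      exact absurd (Sub_antisymm hs h0) hne
    | succ n ih =>
      intro s hs h0 hne
      rw [Ps] at hs
      simp only [Sub, Set.mem_insert_iff, Set.mem_union] at hs
      rcases hs with hs | hs | hs
      · rw [hs]
        obtain ⟨z, k, h1, _, h3⟩ := hQ n
        apply h3
        apply tr_eq
        rw [← h1, hS1 (sg n), h1, tr_length]
      · exact absurd (Sub_subset hs h0) (hQr n)
      · exact ih s hs h0 hne
  · intro i s hs hns
    rw [Ps] at hs
    simp only [Sub, Set.mem_insert_iff, Set.mem_union] at hs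
    rcases hs with hs | hs | hs
    · left
      rw [hs, ← Ps]
      exact lt_trans (Nat.lt_succ_self i) (hsize r (i + 1))
    · obtain ⟨z, k, h1, h2, _⟩ := hQ i
      have hrz : ∀ j < i + k, r j = z j := by
        apply tr_eq
        rw [← h1, hS1 (sg i), h1, tr_length]
      rcases h2.sub_cases.2 s hs with h3 | ⟨y, hy, h3⟩
      · left
        have := hsize z i
        exact lt_of_lt_of_le this h3
      · -- subterms of `P y i`
        have hE : ∀ n, s ∈ Sub (P y n) → s ∈ Sub (P r n) ∨ ∃ j ≤ n, s = P y j := by
          intro n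
          induction n with
          | zero =>
            intro h
            right
            refine ⟨0, le_refl _, ?_⟩
            rw [P0] at h ⊢
            simpa [Sub] using h
          | succ n ih =>
            intro h
            rw [Ps] at h
            simp only [Sub, Set.mem_insert_iff, Set.mem_union] at h
            rcases h with h | h | h
            · exact Or.inr ⟨n + 1, le_refl _, by rw [h, Ps]⟩
            · left
              rw [Ps]
              simp only [Sub, Set.mem_insert_iff, Set.mem_union]
              exact Or.inr (Or.inl h)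
            · rcases ih h with h | ⟨j, hj, h⟩
              · exact Or.inl (Sub_subset (hmono r n) h)
              · exact Or.inr ⟨j, by omega, h⟩
        rcases hE i h3 with h4 | ⟨j, hj, h4⟩
        · exact absurd h4 hns
        · right
          refine ⟨P r j, ?_, ?_⟩
          · apply hmono'
            rw [h4]
            exact (hsize y j).le
          · rw [h4]
            apply agree_ctx
            intro l hl
            rw [hy l hl, hrz l (by omega)]
    · exact absurd hs hns

theorem exists_good (c : Tm → Bool) : ∃ p col, Good c p col := by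
  by_cases H : ∀ (h : List Tm) (m : ℕ) (z : ℕ → Bool), ∃ k q, Chain c h m z k q ∧
      ∀ y : ℕ → Bool, (∀ i < m + k, y i = z i) → c (node q (ctx h y)) = true
  · obtain ⟨p, hp⟩ := case_b c H
    exact ⟨p, true, hp⟩
  · push Not at H
    obtain ⟨h, m, z, H⟩ := H
    obtain ⟨p, hp⟩ := case_a c h m z (fun k q hkq => by
      obtain ⟨y, h1, h2⟩ := H k q hkq
      exact ⟨y, h1, by simpa using h2⟩)
    exact ⟨p, false, hp⟩

theorem Good.sub_mono {c : Tm → Bool} {p : ℕ → Tm} {col : Bool} (h : Good c p col) {m n : ℕ}
    (hmn : m ≤ n) : Sub (p m) ⊆ Sub (p n) := by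
  induction n, hmn using Nat.le_induction with
  | base => exact le_refl _
  | succ n _ ih => exact ih.trans (Sub_subset (h.mono n))

/-- The union of the subterm sets along a good sequence is closed. -/
theorem Good.closed {c : Tm → Bool} {p : ℕ → Tm} {col : Bool} (h : Good c p col) (t : Tm)
    (ht : ∀ k, ∃ n, ∃ s ∈ Sub (p n), Agree k t s) : ∃ n, t ∈ Sub (p n) := by
  by_contra hcon
  push Not at hcon
  obtain ⟨k₀, hk₀⟩ := exists_sep t (Sub_finite (p (size t))) (hcon _)
  obtain ⟨k₁, hk₁⟩ := exists_sep t (Sub_finite (p (max k₀ (size t)))) (hcon _)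
  obtain ⟨n, s, hs, hag⟩ := ht (max k₁ (max k₀ (size t)))
  have hsz : size t = size s := hag.size_eq
  -- the first index at which `s` appears
  have hex : ∃ n, s ∈ Sub (p n) := ⟨n, hs⟩
  classical
  obtain ⟨i₀, hi₀, hmin⟩ : ∃ i₀, s ∈ Sub (p i₀) ∧ ∀ j < i₀, s ∉ Sub (p j) :=
    ⟨Nat.find hex, Nat.find_spec hex, fun j hj => Nat.find_min hex hj⟩
  have hi₀' : max k₀ (size t) < i₀ := by
    by_contra hle
    push Not at hle
    exact hk₁ s (h.sub_mono hle hi₀) (hag.mono (le_max_left _ _))
  obtain ⟨i, rfl⟩ : ∃ i, i₀ = i + 1 := ⟨i₀ - 1, by omega⟩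
  rcases h.small i s hi₀ (hmin i (Nat.lt_succ_self i)) with h1 | ⟨s', h1, h2⟩
  · have : size t ≤ max k₀ (size t) := le_max_right _ _
    omega
  · rw [← hsz] at h1
    refine hk₀ s' h1 (Agree.trans (hag.mono ?_) (h2.mono ?_))
    · exact le_trans (le_max_left _ _) (le_max_right _ _)
    · have : k₀ ≤ max k₀ (size t) := le_max_left _ _
      omega

/-- the set of natural numbers attached to a term -/
def supp (t : Tm) : Set ℕ := {n | ∃ k, ∃ s ∈ Sub t, n = Nat.pair k (code k s)}

theorem supp_mono {s t : Tm} (h : s ∈ Sub t) : supp s ⊆ supp t := by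
  rintro n ⟨k, u, hu, rfl⟩
  exact ⟨k, u, Sub_subset h hu, rfl⟩

theorem mem_of_supp_subset {s t : Tm} (h : supp s ⊆ supp t) : s ∈ Sub t := by
  by_contra hcon
  obtain ⟨k, hk⟩ := exists_sep s (Sub_finite t) hcon
  obtain ⟨k', u, hu, he⟩ := h ⟨k, s, self_mem_Sub s, rfl⟩
  obtain ⟨h1, h2⟩ := Nat.pair_eq_pair.1 he
  subst h1
  exact hk u hu ((code_eq_iff _ _ _).1 h2)

end Tm

open Tm

/-- The combinatorial core: a family of sets of natural numbers. -/
theorem core : ∃ 𝒩 : Set (Set ℕ), ∀ c : Set ℕ → Bool, ∃ x : Set ℕ,
    (∀ N ∈ 𝒩, N ⊆ x → ∃ N' ∈ 𝒩, N ⊂ N' ∧ N' ⊆ x) ∧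
    ∃ N₀ ∈ 𝒩, N₀ ⊆ x ∧ ∃ col : Bool, ∀ N ∈ 𝒩, N₀ ⊂ N → N ⊆ x → c N = col := by
  refine ⟨Set.range supp, fun c => ?_⟩
  obtain ⟨p, col, hp⟩ := exists_good (fun t => c (supp t))
  have hx : ∀ t, supp t ⊆ (⋃ n, supp (p n)) → ∃ n, t ∈ Sub (p n) := by
    intro t ht
    apply hp.closed
    intro k
    obtain ⟨n, hn⟩ := Set.mem_iUnion.1 (ht ⟨k, t, self_mem_Sub t, rfl⟩)
    obtain ⟨k', u, hu, he⟩ := hn
    obtain ⟨h1, h2⟩ := Nat.pair_eq_pair.1 he
    subst h1
    exact ⟨n, u, hu, (code_eq_iff _ _ _).1 h2⟩
  refine ⟨⋃ n, supp (p n), ?_, supp (p 0), ⟨p 0, rfl⟩, Set.subset_iUnion_of_subset 0 (le_refl _),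
    col, ?_⟩
  · rintro N ⟨t, rfl⟩ ht
    obtain ⟨n, hn⟩ := hx t ht
    refine ⟨supp (p (max n (size t))), ⟨_, rfl⟩, ?_, Set.subset_iUnion_of_subset _ (le_refl _)⟩
    have hmem : t ∈ Sub (p (max n (size t))) := hp.sub_mono (le_max_left _ _) hn
    refine ⟨supp_mono hmem, ?_⟩
    intro hcon
    have h1 := size_le (mem_of_supp_subset hcon)
    have h2 := hp.size_lt (max n (size t))
    have h3 := le_max_right n (size t)
    omega
  · rintro N ⟨t, rfl⟩ h1 h2
    obtain ⟨n, hn⟩ := hx t h2
    refine hp.homog n t hn (mem_of_supp_subset h1.1) ?_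
    rintro rfl
    exact h1.2 (le_refl _)

end Pool.Agent.MP_0ab388_gt
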